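import Pool.Agent.H96.AL.Targets3

/-!
Module XS of the board al_modules (MP_c9ef16_gt): the excess of a strained pair is
`2 κ`-Lipschitz along shortest paths.
-/

open Topology Set Filter Real

namespace Pool.Agent.H47.AL

open Pool.Agent.H96.AL

variable {X : Type} [MetricSpace X]

/-- a point at given distance on a shortest path -/
theorem exists_btw (hG : Geo X) (q a : X) (h : ℝ) (h0 : 0 ≤ h) (h1 : h ≤ dist q a) :
    ∃ a' : X, Btw q a' a ∧ dist q a' = h := by
  obtain ⟨γ, g0, g1, g2⟩ := hG q a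
  have e1 : dist q (γ h) = h := by
    have := g2 0 ⟨le_rfl, h0.trans h1⟩ h ⟨h0, h1⟩
    rw [g0] at this
    rw [this, zero_sub, abs_neg, abs_of_nonneg h0]
  have e2 : dist (γ h) a = dist q a - h := by
    have := g2 h ⟨h0, h1⟩ (dist q a) ⟨h0.trans h1, le_rfl⟩
    rw [g1] at this
    rw [this, abs_sub_comm, abs_of_nonneg (by linarith)]
  refine ⟨γ h, ?_, e1⟩
  unfold Pool.Agent.H96.AL.Btw
  rw [e1, e2]
  ring

/-- the inequality for the small configuration -/
theorem key_ineq (hEL : T_EL) {κ h A B P Q R : ℝ} (hκ : 0 < κ) (hκ1 : κ ≤ 1) (hh : 0 < h)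
    (hP0 : 0 ≤ P) (hQ0 : 0 ≤ Q) (hR0 : 0 ≤ R)
    (hP : cosh P ≤ cosh (κ * h) * cosh h + sinh (κ * h) * sinh h * A)
    (hQ : cosh Q ≤ cosh (κ * h) * cosh h + sinh (κ * h) * sinh h * B)
    (hR : cosh h ^ 2 + (1 - κ ^ 2) * sinh h ^ 2 ≤ cosh R) (hR2 : R ≤ 2 * h)
    (hPQ : R ≤ P + Q) (hAB : A + B ≤ 0) :
    (2 - κ ^ 2) / cosh (2 * h) ≤ (κ ^ 2 + 1) * cosh (2 * h) ^ 2 + κ * (A + B) + 1 := by
  obtain ⟨c, hc⟩ : ∃ c, c = cosh (2 * h) := ⟨_, rfl⟩
  have hκh : 0 < κ * h := mul_pos hκ hh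
  have hκh1 : κ * h ≤ h := mul_le_of_le_one_left hh.le hκ1
  have hc1 : 1 ≤ c := hc ▸ one_le_cosh _
  have hch : cosh h ≤ c := by
    rw [hc]
    exact cosh_le_cosh.2 (by rw [abs_of_pos hh, abs_of_pos (by linarith)]; linarith)
  obtain ⟨-, -, p1, -, -⟩ := hEL P P hP0 le_rfl
  obtain ⟨-, -, q1, -, -⟩ := hEL Q Q hQ0 le_rfl
  obtain ⟨-, -, -, r1, -⟩ := hEL (2 * h) R hR0 hR2
  obtain ⟨k1, -, -, k2, -⟩ := hEL (2 * h) (κ * h) hκh.le (by linarith)
  obtain ⟨l1, -, -, l2, -⟩ := hEL (2 * h) h hh.le (by linarith)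
  rw [← hc] at r1 k2 l2 ⊢
  have hsh : cosh h ^ 2 - sinh h ^ 2 = 1 := cosh_sq_sub_sinh_sq h
  -- product of the hyperbolic sines
  have hss : κ * h * h ≤ sinh (κ * h) * sinh h :=
    mul_le_mul k1 l1 hh.le (hκh.le.trans k1)
  have hss2 : sinh (κ * h) * sinh h * (A + B) ≤ κ * h * h * (A + B) :=
    mul_le_mul_of_nonpos_right hss hAB
  have hcosh1 : 1 ≤ cosh h := one_le_cosh h
  have hcc : cosh (κ * h) * cosh h - 1 ≤ h ^ 2 / 2 * ((κ ^ 2 + 1) * c ^ 2) := by
    have e : cosh (κ * h) * cosh h - 1 = (cosh (κ * h) - 1) * cosh h + (cosh h - 1) := by ring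
    have e1 : (cosh (κ * h) - 1) * cosh h ≤ ((κ * h) ^ 2 / 2 * c) * c :=
      mul_le_mul k2 hch (by linarith) (by positivity)
    have e2 : cosh h - 1 ≤ h ^ 2 / 2 * (c * c) := by
      refine l2.trans ?_
      refine mul_le_mul_of_nonneg_left ?_ (by positivity)
      exact le_mul_of_one_le_left (by linarith only [hc1]) hc1
    rw [e]
    calc _ ≤ ((κ * h) ^ 2 / 2 * c) * c + h ^ 2 / 2 * (c * c) := add_le_add e1 e2
      _ = _ := by ring
  have hsum : 2 * h * R ≤ 2 * h ^ 2 * ((κ ^ 2 + 1) * c ^ 2 + κ * (A + B) + 1) := by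
    have e0 : 2 * h * R ≤ 2 * h * (P + Q) := mul_le_mul_of_nonneg_left hPQ (by positivity)
    have e1 : 2 * h * R ≤ P ^ 2 + Q ^ 2 + 2 * h ^ 2 := by
      nlinarith only [e0, sq_nonneg (P - h), sq_nonneg (Q - h)]
    have e2 : P ^ 2 + Q ^ 2 ≤ 2 * (2 * (cosh (κ * h) * cosh h - 1) +
        sinh (κ * h) * sinh h * (A + B)) := by
      linarith only [p1, q1, hP, hQ]
    linarith only [e1, e2, hcc, hss2]
  have hRh : h * ((2 - κ ^ 2) / c) ≤ R := by
    have hκ2 : κ ^ 2 ≤ 1 := pow_le_one₀ hκ.le hκ1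
    have hsinh2 : h ^ 2 ≤ sinh h ^ 2 := pow_le_pow_left₀ hh.le l1 2
    have e1 : (2 - κ ^ 2) * h ^ 2 ≤ R ^ 2 / 2 * c := by
      have := mul_le_mul_of_nonneg_left hsinh2 (by linarith only [hκ2] : 0 ≤ 2 - κ ^ 2)
      linarith only [this, r1, hR, hsh]
    have hc0 : 0 < c := by linarith only [hc1]
    have e2 : ((2 - κ ^ 2) * h) ^ 2 ≤ (R * c) ^ 2 := by
      have e3 : (2 - κ ^ 2) ^ 2 ≤ 2 * (2 - κ ^ 2) := by
        nlinarith only [hκ2, sq_nonneg κ, mul_nonneg (sq_nonneg κ)
          (by linarith only [hκ2] : 0 ≤ 2 - κ ^ 2)]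
      have e4 : (2 - κ ^ 2) ^ 2 * h ^ 2 ≤ 2 * (2 - κ ^ 2) * h ^ 2 :=
        mul_le_mul_of_nonneg_right e3 (by positivity)
      have e5 : R ^ 2 * c ≤ R ^ 2 * c * c := by
        exact le_mul_of_one_le_right (by positivity) hc1
      have e8 : (2 - κ ^ 2) * h ^ 2 * c ≤ R ^ 2 / 2 * c * c :=
        mul_le_mul_of_nonneg_right e1 hc0.le
      have e9 : (2 - κ ^ 2) * h ^ 2 ≤ (2 - κ ^ 2) * h ^ 2 * c :=
        le_mul_of_one_le_right (mul_nonneg (by linarith only [hκ2]) (sq_nonneg h)) hc1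
      linarith only [e4, e8, e9]
    have e6 : (2 - κ ^ 2) * h ≤ R * c :=
      abs_le_of_sq_le_sq' e2 (by positivity) |>.2
    have e7 : h * ((2 - κ ^ 2) / c) = (2 - κ ^ 2) * h / c := by ring
    rw [e7, div_le_iff₀ hc0]
    exact e6
  have h2 : 2 * h * (h * ((2 - κ ^ 2) / c)) ≤ 2 * h * R :=
    mul_le_mul_of_nonneg_left hRh (by positivity)
  have h3 : 2 * h ^ 2 * ((2 - κ ^ 2) / c) ≤
      2 * h ^ 2 * ((κ ^ 2 + 1) * c ^ 2 + κ * (A + B) + 1) := by
    calc _ = 2 * h * (h * ((2 - κ ^ 2) / c)) := by ring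
      _ ≤ 2 * h * R := h2
      _ ≤ _ := hsum
  exact le_of_mul_le_mul_left h3 (by positivity)

/-- the sum of the comparison cosines at an interior point -/
theorem cos_sum (hEL : T_EL) (hHG : T_HG) (hMO : T_MO) (hG : Geo X) (hCB : CB X) {a b q u : X}
    {κ : ℝ} (hκ : 0 < κ) (hκ1 : κ ≤ 1) (hqa : q ≠ a) (hqb : q ≠ b)
    (hcc : cc (dist q a) (dist q b) (dist a b) ≤ -1 + κ ^ 2) (hqu : q ≠ u) (v : ℝ → X) {s : ℝ}
    (hs : 0 < s) (hv : ∀ t, 0 ≤ t → t ≤ s → dist (v t) q = t ∧ Btw (v t) q u) :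
    -(2 * κ) ≤ cc (dist q u) (dist q a) (dist u a) + cc (dist q u) (dist q b) (dist u b) := by
  set A := cc (dist q u) (dist q a) (dist u a) with hA
  set B := cc (dist q u) (dist q b) (dist u b) with hB
  by_cases hAB : A + B ≤ 0
  · have hqa0 : 0 < dist q a := dist_pos.2 hqa
    have hqb0 : 0 < dist q b := dist_pos.2 hqb
    have hev : ∀ᶠ h : ℝ in 𝓝[>] 0, (2 - κ ^ 2) / cosh (2 * h) ≤
        (κ ^ 2 + 1) * cosh (2 * h) ^ 2 + κ * (A + B) + 1 := by
      have hm : Ioo (0 : ℝ) (min s (min (dist q a) (dist q b))) ∈ 𝓝[>] (0 : ℝ) :=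
        Ioo_mem_nhdsGT (lt_min hs (lt_min hqa0 hqb0))
      filter_upwards [hm] with h hh
      obtain ⟨h0, h1⟩ := hh
      have hhs : h < s := h1.trans_le (min_le_left _ _)
      have hha : h < dist q a := h1.trans_le ((min_le_right _ _).trans (min_le_left _ _))
      have hhb : h < dist q b := h1.trans_le ((min_le_right _ _).trans (min_le_right _ _))
      obtain ⟨a', ha', hda⟩ := exists_btw hG q a h h0.le hha.le
      obtain ⟨b', hb', hdb⟩ := exists_btw hG q b h h0.le hhb.le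
      have hκh : κ * h ≤ s := by nlinarith
      obtain ⟨v1, v2⟩ := hv (κ * h) (by positivity) hκh
      have ea := hHG X hCB (v (κ * h)) q u a' a v2 ha' hqu hqa
      have eb := hHG X hCB (v (κ * h)) q u b' b v2 hb' hqu hqb
      rw [v1, hda] at ea
      rw [v1, hdb] at eb
      have hqa' : q ≠ a' := by
        intro e
        rw [← e, dist_self] at hda
        exact h0.ne hda
      have hqb' : q ≠ b' := by
        intro e
        rw [← e, dist_self] at hdb
        exact h0.ne hdb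
      have em := hMO X hCB q a b a' b' ha' hb' hqa' hqb'
      rw [hda, hdb] at em
      have em2 := em.trans hcc
      have hsh : 0 < sinh h := sinh_pos_iff.2 h0
      have hR : cosh h ^ 2 + (1 - κ ^ 2) * sinh h ^ 2 ≤ cosh (dist a' b') := by
        unfold cc at em2
        rw [div_le_iff₀ (by positivity)] at em2
        nlinarith
      have hR2 : dist a' b' ≤ 2 * h := by
        have := dist_triangle a' q b'
        rw [dist_comm a' q, hda, hdb] at this
        linarith
      have hPQ : dist a' b' ≤ dist a' (v (κ * h)) + dist b' (v (κ * h)) := by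
        have := dist_triangle a' (v (κ * h)) b'
        rwa [dist_comm (v (κ * h)) b'] at this
      exact key_ineq hEL hκ hκ1 h0 dist_nonneg dist_nonneg dist_nonneg ea eb hR hR2 hPQ hAB
    have hc2 : Continuous fun h : ℝ => cosh (2 * h) := continuous_cosh.comp (by fun_prop)
    have t1 : Tendsto (fun h : ℝ => (2 - κ ^ 2) / cosh (2 * h)) (𝓝[>] 0)
        (𝓝 ((2 - κ ^ 2) / cosh (2 * 0))) := by
      refine Tendsto.mono_left ?_ nhdsWithin_le_nhds
      exact (Continuous.div continuous_const hc2 (fun h => (cosh_pos _).ne')).tendsto 0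
    have t2 : Tendsto (fun h : ℝ => (κ ^ 2 + 1) * cosh (2 * h) ^ 2 + κ * (A + B) + 1) (𝓝[>] 0)
        (𝓝 ((κ ^ 2 + 1) * cosh (2 * 0) ^ 2 + κ * (A + B) + 1)) := by
      refine Tendsto.mono_left ?_ nhdsWithin_le_nhds
      exact ((((hc2.pow 2).const_mul _).add continuous_const).add continuous_const).tendsto 0
    have := le_of_tendsto_of_tendsto t1 t2 hev
    simp only [mul_zero, cosh_zero, div_one, one_pow, mul_one] at this
    have h4 : 0 ≤ κ * (A + B + 2 * κ) := by nlinarith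
    have h5 := nonneg_of_mul_nonneg_right h4 hκ
    linarith
  · push Not at hAB
    linarith

/-- growth of a distance along a path starting at `q`, in terms of the comparison cosine -/
theorem grow {α r d : ℝ} (hα : 0 < α) (hr : 0 < r) :
    d - α ≤ -(cc r α d) * sinh r + (cosh r - 1) * (cosh α / sinh α) := by
  have hs : 0 < sinh α := sinh_pos_iff.2 hα
  have hr' : 0 < sinh r := sinh_pos_iff.2 hr
  -- convexity of `cosh`
  have hconv : cosh α + sinh α * (d - α) ≤ cosh d := by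
    have h1 : cosh d = cosh α * cosh (d - α) + sinh α * sinh (d - α) := by
      rw [← cosh_add]; congr 1; ring
    have key : ∀ x : ℝ, 0 ≤ cosh α * (cosh x - 1) + sinh α * (sinh x - x) := by
      intro x
      have hcs : sinh α ≤ cosh α := (sinh_lt_cosh α).le
      rcases le_total 0 x with hx | hx
      · have e1 : 0 ≤ cosh x - 1 := by linarith [one_le_cosh x]
        have e2 : 0 ≤ sinh x - x := by linarith [self_le_sinh_iff.2 hx]
        have := mul_nonneg (cosh_pos α).le e1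
        have := mul_nonneg hs.le e2
        linarith
      · have e1 : 0 ≤ cosh x - 1 := by linarith [one_le_cosh x]
        have e2 : sinh x - x ≤ 0 := by linarith [sinh_le_self_iff.2 hx]
        have e3 : 0 ≤ cosh x - 1 + (sinh x - x) := by
          have : cosh x + sinh x = exp x := cosh_add_sinh x
          have := add_one_le_exp x
          linarith
        nlinarith [mul_nonneg hs.le e3, mul_nonneg (sub_nonneg.2 hcs) e1]
    have := key (d - α)
    nlinarith
  have hcc : cc r α d * (sinh r * sinh α) = cosh r * cosh α - cosh d := by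
    unfold cc
    rw [div_mul_cancel₀ _ (by positivity)]
  have h2 : sinh α * (d - α) ≤
      sinh α * (-(cc r α d) * sinh r + (cosh r - 1) * (cosh α / sinh α)) := by
    have e : sinh α * (-(cc r α d) * sinh r + (cosh r - 1) * (cosh α / sinh α)) =
        -(cc r α d * (sinh r * sinh α)) + (cosh r - 1) * cosh α := by
      field_simp
    rw [e, hcc]
    linarith
  exact le_of_mul_le_mul_left h2 hs

/-- one sided estimate -/
theorem xs_one (hEL : T_EL) (hHG : T_HG) (hMO : T_MO) (hG : Geo X) (hCB : CB X) (a b : X)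
    (κ : ℝ) (O : Set X) (hκ : 0 < κ) (hκ1 : κ ≤ 1)
    (hO : ∀ w ∈ O, w ≠ a ∧ w ≠ b ∧ cc (dist w a) (dist w b) (dist a b) ≤ -1 + κ ^ 2)
    (x y : X) (γ : ℝ → X) (hγ : IsGeod γ x y) (hγO : ∀ s ∈ Icc (0 : ℝ) (dist x y), γ s ∈ O) :
    (dist y a + dist y b) - (dist x a + dist x b) ≤ 2 * κ * dist x y := by
  obtain ⟨g0, g1, g2⟩ := hγ
  set l := dist x y with hl
  have hl0 : 0 ≤ l := dist_nonneg
  set φ : ℝ → ℝ := fun s => dist (γ s) a + dist (γ s) b with hφ
  have hφc : ContinuousOn φ (Icc 0 l) := by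
    have hγc : ContinuousOn γ (Icc 0 l) := by
      rw [Metric.continuousOn_iff]
      intro s hs ε hε
      refine ⟨ε, hε, fun t ht hts => ?_⟩
      rw [g2 t ht s hs]
      exact hts
    exact (continuous_dist.comp_continuousOn (hγc.prodMk continuousOn_const)).add
      (continuous_dist.comp_continuousOn (hγc.prodMk continuousOn_const))
  -- local estimate
  have hloc : ∀ s, 0 < s → s < l → ∀ ρ, 2 * κ < ρ → ∃ᶠ z in 𝓝[>] s, slope φ s z < ρ := by
    intro s hs hsl ρ hρ
    have hsI : s ∈ Icc (0 : ℝ) l := ⟨hs.le, hsl.le⟩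
    obtain ⟨hqa, hqb, hcc⟩ := hO _ (hγO s hsI)
    have hα : 0 < dist (γ s) a := dist_pos.2 hqa
    have hβ : 0 < dist (γ s) b := dist_pos.2 hqb
    set K := cosh (dist (γ s) a) / sinh (dist (γ s) a) +
      cosh (dist (γ s) b) / sinh (dist (γ s) b) with hK
    have hest : ∀ r, 0 < r → s + r < l →
        φ (s + r) - φ s ≤ 2 * κ * sinh r + (cosh r - 1) * K := by
      intro r hr hrl
      have hrI : s + r ∈ Icc (0 : ℝ) l := ⟨by linarith, hrl.le⟩
      have hqu : dist (γ s) (γ (s + r)) = r := by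
        rw [g2 s hsI _ hrI, abs_sub_comm, show s + r - s = r by ring, abs_of_pos hr]
      have hne : γ s ≠ γ (s + r) := by
        intro e
        rw [← e, dist_self] at hqu
        exact hr.ne hqu
      have h1 := cos_sum hEL hHG hMO hG hCB hκ hκ1 hqa hqb hcc hne (fun t => γ (s - t)) hs
        (by
          intro t ht0 hts
          have htI : s - t ∈ Icc (0 : ℝ) l := ⟨by linarith, by linarith⟩
          have e1 : dist (γ (s - t)) (γ s) = t := by
            rw [g2 _ htI s hsI, show s - t - s = -t by ring, abs_neg, abs_of_nonneg ht0]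
          have e2 : dist (γ (s - t)) (γ (s + r)) = t + r := by
            rw [g2 _ htI _ hrI, show s - t - (s + r) = -(t + r) by ring, abs_neg,
              abs_of_nonneg (by linarith)]
          refine ⟨e1, ?_⟩
          unfold Pool.Agent.H96.AL.Btw
          rw [e1, e2, hqu])
      rw [hqu] at h1
      have h2 := grow (d := dist (γ (s + r)) a) hα hr
      have h3 := grow (d := dist (γ (s + r)) b) hβ hr
      have hsr : 0 ≤ sinh r := (sinh_pos_iff.2 hr).le
      have h4 := mul_le_mul_of_nonneg_right h1 hsr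
      simp only [hφ, hK]
      nlinarith
    -- the bound has derivative `2 κ` at `0`
    have hder : HasDerivAt (fun z : ℝ => 2 * κ * sinh (z - s) + (cosh (z - s) - 1) * K)
        (2 * κ) s := by
      have d1 : HasDerivAt (fun z : ℝ => z - s) 1 s := (hasDerivAt_id s).sub_const s
      have d2 := (d1.sinh.const_mul (2 * κ)).add ((d1.cosh.sub_const 1).mul_const K)
      have e : 2 * κ * (cosh (s - s) * 1) + sinh (s - s) * 1 * K = 2 * κ := by
        simp
      rw [e] at d2
      exact d2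
    have hsl' := hder.tendsto_slope
    have hsl2 : Tendsto (slope (fun z : ℝ => 2 * κ * sinh (z - s) + (cosh (z - s) - 1) * K) s)
        (𝓝[>] s) (𝓝 (2 * κ)) :=
      hsl'.mono_left (nhdsWithin_mono _ (fun z hz => (ne_of_gt hz : z ≠ s)))
    have hev := hsl2.eventually (gt_mem_nhds hρ)
    have hm : Ioo s l ∈ 𝓝[>] s := Ioo_mem_nhdsGT hsl
    refine Eventually.frequently ?_
    filter_upwards [hev, hm] with z hz hzI
    refine lt_of_le_of_lt ?_ hz
    obtain ⟨z1, z2⟩ := hzI
    have := hest (z - s) (by linarith) (by linarith)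
    rw [show s + (z - s) = z by ring] at this
    rw [slope_def_field, slope_def_field]
    have h0 : 2 * κ * sinh (s - s) + (cosh (s - s) - 1) * K = 0 := by simp
    rw [h0, sub_zero]
    exact div_le_div_of_nonneg_right this (by linarith)
  -- integration
  have hint : ∀ t, 0 < t → t ≤ l → φ l ≤ φ t + 2 * κ * (l - t) := by
    intro t ht htl
    have hB : ∀ z ∈ Ico t l, HasDerivWithinAt (fun z : ℝ => φ t + 2 * κ * (z - t)) (2 * κ)
        (Ici z) z := by
      intro z _
      have d1 : HasDerivAt (fun z : ℝ => z - t) 1 z := (hasDerivAt_id z).sub_const t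
      have d2 := (d1.const_mul (2 * κ)).const_add (φ t)
      rw [mul_one] at d2
      exact d2.hasDerivWithinAt
    exact image_le_of_liminf_slope_right_le_deriv_boundary
      (hφc.mono (Icc_subset_Icc_left ht.le)) (by simp) (by fun_prop) hB
      (fun z hz ρ hρ => hloc z (ht.trans_le hz.1) hz.2 ρ hρ) ⟨htl, le_rfl⟩
  rcases hl0.eq_or_lt with h0 | h0
  · have hxy : x = y := by
      rw [hl] at h0
      exact dist_eq_zero.1 h0.symm
    subst hxy
    rw [← h0]
    simp
  · -- let `t` tend to `0`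
    have ht : Tendsto (fun t => φ t + 2 * κ * (l - t)) (𝓝[>] 0) (𝓝 (φ 0 + 2 * κ * (l - 0))) := by
      have h1 : Tendsto φ (𝓝[>] 0) (𝓝 (φ 0)) := by
        have := (hφc 0 ⟨le_rfl, hl0⟩).tendsto
        refine this.mono_left ?_
        rw [← nhdsWithin_Ioo_eq_nhdsGT h0]
        exact nhdsWithin_mono _ Ioo_subset_Icc_self
      have h2 : Tendsto (fun t : ℝ => 2 * κ * (l - t)) (𝓝[>] 0) (𝓝 (2 * κ * (l - 0))) := by
        refine Tendsto.mono_left ?_ nhdsWithin_le_nhds
        exact (Continuous.tendsto (by fun_prop) 0)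
      exact h1.add h2
    have hge : φ l ≤ φ 0 + 2 * κ * (l - 0) := by
      refine ge_of_tendsto ht ?_
      filter_upwards [Ioo_mem_nhdsGT h0] with t ht
      exact hint t ht.1 ht.2.le
    simp only [hφ, g0, g1, sub_zero] at hge
    linarith

theorem xs (hHG : T_HG) (hMO : T_MO) (hEL : T_EL) : T_XS := by
  intro X _ hG hCB a b κ O hκ hκ1 _ hO x y γ hγ hγO
  have h1 := xs_one hEL hHG hMO hG hCB a b κ O hκ hκ1 hO x y γ hγ hγO
  have hγ' : IsGeod (fun s => γ (dist x y - s)) y x := by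
    obtain ⟨g0, g1, g2⟩ := hγ
    refine ⟨by simpa using g1, ?_, ?_⟩
    · rw [dist_comm y x]
      simpa using g0
    · intro s hs t ht
      rw [dist_comm y x] at hs ht
      rw [g2 _ ⟨by linarith [hs.2], by linarith [hs.1]⟩ _ ⟨by linarith [ht.2], by linarith [ht.1]⟩,
        show dist x y - s - (dist x y - t) = t - s by ring, abs_sub_comm]
  have h2 := xs_one hEL hHG hMO hG hCB a b κ O hκ hκ1 hO y x _ hγ' (by
    intro s hs
    rw [dist_comm y x] at hs
    exact hγO _ ⟨by linarith [hs.2], by linarith [hs.1]⟩)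
  rw [dist_comm y x] at h2
  rw [abs_le]
  constructor <;> linarith

end Pool.Agent.H47.AL
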